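import Pool.Agent.Lib.MP_af4e44_co.Comp

set_option autoImplicit false

namespace Pool.Agent.Lib.MP_af4e44_co

theorem check : start (7 * 10 ^ 55) 52 = true := by decide +kernel

end Pool.Agent.Lib.MP_af4e44_co
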