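import Mathlib.Data.Nat.Basic
import Mathlib.Data.List.GetD

set_option autoImplicit false

namespace Pool.Agent.Lib.MP_af4e44_co

def lgN (x : Nat) : Nat := (281840736268537589763555517173979689706669490474311567605540405355159138127197489375488 >>> (3 * x)) % 8
def gpN (a : Nat) : Nat := (733156360833 >>> (7 * a)) % 128
def rpN (p : Nat) : Nat := cond (Nat.beq p 0) 0 (gpN (lgN p))

def rhoP (R r : Nat) : Nat := cond (Nat.blt R 36) r (rpN r)

def sigR (R r : Nat) : Nat :=
  cond (Nat.blt R 36)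
    (cond (Nat.beq r 0) (42 + (6 - R / 6) % 6)
      (cond (Nat.beq r 96) (36 + (12 - R % 6 - R / 6) % 6)
        (6 * ((lgN r + 12 - R % 6 - R / 6) % 6) + (R % 6 + lgN (r + 1) + 6 - lgN r) % 6)))
    (cond (Nat.blt R 42)
      (cond (Nat.beq r 0) (42 + (6 - R % 6) % 6)
        (6 * ((lgN r + 6 - R % 6) % 6) + (6 - lgN r) % 6))
      (cond (Nat.beq r 0) (36 + (6 - R % 6) % 6)
        (6 * ((6 - R % 6) % 6) + lgN r)))

def sigP (R r : Nat) : Nat :=
  cond (Nat.blt R 36)
    (cond (Nat.beq r 0) (gpN (R % 6))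
      (cond (Nat.beq r 96) (gpN ((6 - R % 6) % 6)) (96 - r)))
    (cond (Nat.blt R 42) (cond (Nat.beq r 0) 0 96) 0)

def kapN (R : Nat) : Nat := cond (Nat.blt R 36) ((2 * (R / 6) + R % 6) % 6) ((2 * (R % 6)) % 6)

def XX : Nat := 2 ^ 312
def CC : Nat := 2 ^ 304
def MM : Nat := 2 ^ 30264 - 1

noncomputable def gt (l : List Nat) : Nat → Nat :=
  List.rec (motive := fun _ => Nat → Nat) (fun _ => 0)
    (fun a _ ih n => Nat.rec (motive := fun _ => Nat) a (fun m _ => ih m) n) l

def dg (N p : Nat) : Nat := Nat.mod (Nat.shiftRight N (Nat.mul 312 p)) XX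

noncomputable def hor (f : Nat → Nat) (n : Nat) : Nat :=
  Nat.rec (motive := fun _ => Nat) 0 (fun j acc => Nat.add (Nat.shiftLeft (f j) (Nat.mul 312 j)) acc) n

noncomputable def kp (c : Nat) : Nat :=
  hor (fun j => cond (Nat.beq j 0) 0 (cond (Nat.beq (lgN j) c) 1 0)) 97

noncomputable def ones : Nat := hor (fun _ => 1) 97

noncomputable def rowN (be ga : Nat) (st pv : List Nat) (R : Nat) : Nat :=
  (((cond (Nat.blt R 36) (gt st R) (hor (fun j => dg (gt st R) (rpN j)) 97)
      + hor (fun j => dg (gt st (sigR R j)) (sigP R j)) 97) * kp (kapN R)) % MM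
    + (be + ga - 31) * CC * ones) - (be * gt st R + ga * gt pv R)

noncomputable def frc {α : Type} (x : Nat) (k : Nat → α) : α :=
  Nat.rec (motive := fun _ => α) (k 0) (fun n _ => k n) (Nat.add x 1)

noncomputable def mk {α : Type} (f : Nat → Nat) (n : Nat) : List Nat → (List Nat → α) → α :=
  Nat.rec (motive := fun _ => List Nat → (List Nat → α) → α) (fun l k => k l)
    (fun j ih l k => frc (f j) (fun x => ih (x :: l) k)) n

noncomputable def sumN (f : Nat → Nat) (n : Nat) : Nat :=
  Nat.rec (motive := fun _ => Nat) 0 (fun j acc => f j + acc) n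

def ab (y : Nat) : Nat := (y - CC) + (CC - y)

noncomputable def l1 (st : List Nat) : Nat :=
  sumN (fun R => cond (Nat.blt R 36) 16 1 * sumN (fun j => ab (dg (gt st R) (rhoP R j))) 97) 48

noncomputable def run (L : Nat) (n : Nat) : List Nat → List Nat → Bool :=
  Nat.rec (motive := fun _ => List Nat → List Nat → Bool) (fun st _ => Nat.ble (l1 st) L)
    (fun _ ih st pv => mk (rowN 9 96 st pv) 48 [] (fun s => ih s st)) n

noncomputable def start (L n : Nat) : Bool :=
  mk (fun _ => CC * ones) 48 [] (fun z =>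
    mk (fun R => CC * ones + cond (Nat.beq R 42) 1 0) 48 [] (fun d =>
      mk (rowN 32 0 d z) 48 [] (fun s => run L n s z)))

end Pool.Agent.Lib.MP_af4e44_co
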