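import Mathlib

set_option autoImplicit false

namespace Pool.Agent.Lib.MP_af4e44_co

open Finset Matrix

lemma sum_invol {D : Type*} [Fintype D] (σ : D → D) (hσ : ∀ d, σ (σ d) = d) (f : D → ℝ) :
    ∑ d, f (σ d) = ∑ d, f d :=
  Equiv.sum_comp (Function.Involutive.toPerm σ hσ) f

lemma exists_eig {D : Type*} [Fintype D] [DecidableEq D] (a : D → D → ℝ)
    (ha : ∀ d e, a d e = a e d) (σ : D → D) (hσ : ∀ d, σ (σ d) = d) (x : D → ℝ)
    (hx : ∀ d, x (σ d) = x d) (hx0 : x ≠ 0) (c : ℝ) (hc : 0 < c)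
    (hq : ∑ d, x d * ∑ e, a d e * x e ≤ - c * ∑ d, x d * x d) :
    ∃ θ : ℝ, θ ≤ -2 * c ∧ ∃ v : D → ℝ, v ≠ 0 ∧
      ∀ d, (∑ e, a d e * v e) + (∑ e, a (σ d) e * v e) = θ * v d := by
  let N : Matrix D D ℝ := Matrix.of fun d e =>
    a d e + a (σ d) e + a d (σ e) + a (σ d) (σ e) + if d = e then 4 * c else 0
  have hN : N.IsHermitian := by
    ext d e
    simp only [N, conjTranspose_apply, of_apply, star_trivial]
    rw [ha e d, ha (σ e) d, ha e (σ d), ha (σ e) (σ d)]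
    by_cases h : d = e
    · subst h; ring
    · rw [if_neg h, if_neg (Ne.symm h)]; ring
  have hmul : ∀ (y : D → ℝ) (d : D), (N *ᵥ y) d =
      (∑ e, a d e * y e) + (∑ e, a (σ d) e * y e) + (∑ e, a d e * y (σ e))
        + (∑ e, a (σ d) e * y (σ e)) + 4 * c * y d := by
    intro y d
    have h1 : ∀ d', ∑ e, a d' e * y (σ e) = ∑ e, a d' (σ e) * y e := by
      intro d'
      rw [← sum_invol σ hσ (fun e => a d' (σ e) * y e)]
      simp only [hσ]
    rw [h1, h1]
    simp only [N, mulVec, dotProduct, of_apply, add_mul, sum_add_distrib, ite_mul, zero_mul,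
      sum_ite_eq, mem_univ, if_true]
  have hnp : ¬ N.PosDef := by
    intro hp
    have h1 := hp.dotProduct_mulVec_pos hx0
    simp only [star_trivial, dotProduct, hmul, hx] at h1
    have h2 : ∑ d, x d * ∑ e, a (σ d) e * x e = ∑ d, x d * ∑ e, a d e * x e := by
      rw [← sum_invol σ hσ (fun d => x d * ∑ e, a d e * x e)]
      simp only [hx]
    have h3 : ∑ d, x d * (4 * c * x d) = 4 * c * ∑ d, x d * x d := by
      rw [mul_sum]; exact sum_congr rfl fun d _ => by ring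
    simp only [mul_add, sum_add_distrib, h2, h3] at h1
    linarith
  rw [hN.posDef_iff_eigenvalues_pos] at hnp
  push Not at hnp
  obtain ⟨i, hi⟩ := hnp
  have hv := hN.mulVec_eigenvectorBasis i
  set v : D → ℝ := ⇑(hN.eigenvectorBasis i) with hvdef
  set μ := hN.eigenvalues i
  have hv0 : v ≠ 0 := by
    intro h
    have := (hN.eigenvectorBasis.orthonormal.ne_zero i)
    apply this
    ext d
    exact congrFun h d
  have hK : ∀ d, (∑ e, a d e * v e) + (∑ e, a (σ d) e * v e) + (∑ e, a d e * v (σ e))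
        + (∑ e, a (σ d) e * v (σ e)) = (μ - 4 * c) * v d := by
    intro d
    have := congrFun hv d
    rw [hmul] at this
    simp only [Pi.smul_apply, smul_eq_mul] at this
    linarith
  have hs : ∀ d, v (σ d) = v d := by
    intro d
    have h1 := hK d
    have h2 := hK (σ d)
    rw [hσ] at h2
    have h3 : (μ - 4 * c) * v (σ d) = (μ - 4 * c) * v d := by linarith
    exact mul_left_cancel₀ (by linarith) h3
  refine ⟨(μ - 4 * c) / 2, by linarith, v, hv0, fun d => ?_⟩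
  have h1 := hK d
  simp only [hs] at h1
  linarith

/-- scalar three-term recurrence -/
def rc (z : ℝ) : ℕ → ℝ → ℝ → ℝ
  | 0, a1, _ => a1
  | n + 1, a1, a0 => rc z n (z * a1 - 96 * a0) a1

lemma rc_sign (z : ℝ) (n : ℕ) : ∀ c a1 a0 : ℝ,
    rc (-z) n (c * a1) (-c * a0) = (-1) ^ n * c * rc z n a1 a0 := by
  induction n with
  | zero => intro c a1 a0; simp [rc]
  | succ n ih =>
    intro c a1 a0
    have h := ih (-c) (z * a1 - 96 * a0) a1
    simp only [rc]
    rw [show -z * (c * a1) - 96 * (-c * a0) = -c * (z * a1 - 96 * a0) by ring,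
      show c * a1 = - -c * a1 by ring, h]
    ring

lemma rc_mono (z : ℝ) (hz : 59 / 3 ≤ z) (n : ℕ) : ∀ a1 a0 t1 t0 : ℝ, 0 ≤ t0 → 10 * t0 ≤ t1 →
    0 ≤ a0 - t0 → 10 * (a0 - t0) ≤ a1 - t1 → rc (59 / 3) n t1 t0 ≤ rc z n a1 a0 := by
  induction n with
  | zero => intro a1 a0 t1 t0 h1 h2 h3 h4; simp only [rc]; linarith
  | succ n ih =>
    intro a1 a0 t1 t0 h1 h2 h3 h4
    simp only [rc]
    have h5 : 0 ≤ (z - 59 / 3) * a1 := mul_nonneg (by linarith) (by linarith)
    apply ih <;> nlinarith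

def ri : ℕ → ℤ → ℤ → ℤ
  | 0, a1, _ => a1
  | n + 1, a1, a0 => ri n (59 * a1 - 864 * a0) a1

lemma rc_ri (n : ℕ) : ∀ (A1 A0 : ℤ) (s : ℝ),
    rc (59 / 3) n (s * A1) (3 * s * A0) = s / 3 ^ n * ri n A1 A0 := by
  induction n with
  | zero => intro A1 A0 s; simp [rc, ri]
  | succ n ih =>
    intro A1 A0 s
    have h := ih (59 * A1 - 864 * A0) A1 (s / 3)
    simp only [rc, ri]
    rw [show 59 / 3 * (s * (A1 : ℝ)) - 96 * (3 * s * A0)
        = s / 3 * ((59 * A1 - 864 * A0 : ℤ) : ℝ) by push_cast; ring,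
      show s * (A1 : ℝ) = 3 * (s / 3) * A1 by ring, h]
    field_simp
    ring

lemma ri_val : ri 52 1 0 = 11855653441230989130532053487789442415165341959754599574181735747480393612972433 := by decide +kernel

lemma rc_val : (7 * 10 ^ 55 : ℝ) < 128 / 3 * rc (59 / 3) 52 1 0 := by
  have h := rc_ri 52 1 0 1
  rw [ri_val] at h
  simp only [Int.cast_one, mul_one, Int.cast_zero, mul_zero] at h
  rw [h]
  norm_num

lemma rc_final (θ w : ℝ) (hθ : θ ≤ -32 / 3) :
    7 * 10 ^ 55 * |w| ≤ |rc (θ - 9) 52 ((θ - 32) * w) 0| ∧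
      (w ≠ 0 → 7 * 10 ^ 55 * |w| < |rc (θ - 9) 52 ((θ - 32) * w) 0|) := by
  have h1 := rc_sign (9 - θ) 52 ((θ - 32) * w) 1 0
  rw [show -(9 - θ) = θ - 9 by ring, mul_one, mul_zero] at h1
  have h2 := rc_mono (9 - θ) (by linarith) 52 1 0 1 0 le_rfl (by norm_num) (by norm_num)
    (by norm_num)
  have h3 := rc_val
  set T := rc (59 / 3) 52 1 0
  set U := rc (9 - θ) 52 1 0
  have hT : 0 < T := by
    by_contra h
    push Not at h
    nlinarith
  have h4 : |rc (θ - 9) 52 ((θ - 32) * w) 0| = (32 - θ) * U * |w| := by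
    rw [h1, abs_mul, abs_mul, abs_mul, abs_of_nonneg (by linarith : 0 ≤ U),
      abs_of_nonpos (by linarith : θ - 32 ≤ 0)]
    norm_num
    ring
  have h5 : (7 * 10 ^ 55 : ℝ) < (32 - θ) * U := by
    have : 128 / 3 * T ≤ (32 - θ) * U :=
      mul_le_mul (by linarith) h2 hT.le (by linarith)
    linarith
  rw [h4]
  exact ⟨mul_le_mul_of_nonneg_right h5.le (abs_nonneg _),
    fun hw => mul_lt_mul_of_pos_right h5 (abs_pos.mpr hw)⟩

end Pool.Agent.Lib.MP_af4e44_co
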