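import Mathlib
import Pool.Agent.Lib.MP_af4e44_co.Comp

set_option autoImplicit false

namespace Pool.Agent.Lib.MP_af4e44_co

open Finset

abbrev F := ZMod 97
abbrev Z6 := ZMod 6
abbrev V := Z6 × Option F
abbrev D := V × F

instance fact97 : Fact (Nat.Prime 97) := ⟨by norm_num⟩

def lg (x : F) : Z6 := ((lgN x.val : ℕ) : Z6)
def gp (a : Z6) : F := ((gpN a.val : ℕ) : F)

lemma lg_mul' : ∀ x y : F, x ≠ 0 → y ≠ 0 → lg (x * y) = lg x + lg y := by decide +kernel
lemma lg_mul {x y : F} (hx : x ≠ 0) (hy : y ≠ 0) : lg (x * y) = lg x + lg y := lg_mul' x y hx hy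
lemma lg_neg : ∀ x : F, lg (-x) = lg x := by decide +kernel
lemma lg_one : lg 1 = 0 := by decide +kernel
lemma lg_inv {x : F} (hx : x ≠ 0) : lg x⁻¹ = - lg x := by
  have h := lg_mul hx (inv_ne_zero hx)
  rw [mul_inv_cancel₀ hx, lg_one] at h
  linear_combination -h
lemma sumfree : ∀ x y : F, x ≠ 0 → y ≠ 0 → x + y ≠ 0 → lg x = lg y → lg (x + y) ≠ lg x := by
  decide +kernel
lemma lg_gp : ∀ a : Z6, lg (gp a) = a := by decide +kernel
lemma gp_ne : ∀ a : Z6, gp a ≠ 0 := by decide +kernel

def kk (c : Z6) (x : F) : Prop := x ≠ 0 ∧ lg x = c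
instance (c : Z6) (x : F) : Decidable (kk c x) := inferInstanceAs (Decidable (x ≠ 0 ∧ lg x = c))

lemma cnt : ∀ c : Z6, (∑ x : F, if kk c x then 1 else 0 : ℕ) = 16 := by decide +kernel

lemma kk_neg (c : Z6) (x : F) : kk c (-x) ↔ kk c x := by
  simp only [kk, lg_neg, ne_eq, neg_eq_zero]

lemma kk_mul {c c' : Z6} {al : F} (h0 : al ≠ 0) (h : lg al + c = c') (x : F) :
    kk c' (al * x) ↔ kk c x := by
  unfold kk
  constructor
  · rintro ⟨h1, h2⟩
    have hx : x ≠ 0 := right_ne_zero_of_mul h1
    rw [lg_mul h0 hx] at h2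
    exact ⟨hx, by linear_combination h2 - h⟩
  · rintro ⟨h1, h2⟩
    exact ⟨mul_ne_zero h0 h1, by rw [lg_mul h0 h1]; linear_combination h2 + h⟩

def adj : V → V → Prop
  | (i, some s), (j, some t) => kk (-i - j) (t - s)
  | (i, none), (j, some _) => i + j = 0
  | (i, some _), (j, none) => i + j = 0
  | (_, none), (_, none) => False

def hd : V → F → V
  | (i, none), t => (-i, some t)
  | (i, some s), p => if p = 0 then (-i, none) else (lg p - i, some (s + p⁻¹))

def rv : V → F → F
  | (_, none), _ => 0
  | (_, some s), p => if p = 0 then s else -p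

def ps : V → V → F
  | (_, none), (_, none) => 0
  | (_, none), (_, some t) => t
  | (_, some _), (_, none) => 0
  | (_, some s), (_, some t) => (t - s)⁻¹

def sg (d : D) : D := (hd d.1 d.2, rv d.1 d.2)

lemma adj_symm : ∀ a b : V, adj a b → adj b a
  | (i, some s), (j, some t), h => by
    simp only [adj] at h ⊢
    rw [← kk_neg, neg_sub, show -j - i = -i - j by ring]; exact h
  | (i, none), (j, some _), h => by simp only [adj] at h ⊢; linear_combination h
  | (i, some _), (j, none), h => by simp only [adj] at h ⊢; linear_combination h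
  | (_, none), (_, none), h => h

lemma adj_irrefl : ∀ a : V, ¬ adj a a
  | (i, some s) => by simp [adj, kk]
  | (_, none) => by simp [adj]

lemma adj_hd : ∀ (a : V) (p : F), adj a (hd a p)
  | (i, none), t => by simp [adj, hd]
  | (i, some s), p => by
    by_cases hp : p = 0
    · simp [adj, hd, hp]
    · simp only [hd, if_neg hp, adj, add_sub_cancel_left, kk]
      exact ⟨inv_ne_zero hp, by rw [lg_inv hp]; ring⟩

lemma ps_hd : ∀ (a : V) (p : F), ps a (hd a p) = p
  | (i, none), t => by simp [ps, hd]
  | (i, some s), p => by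
    by_cases hp : p = 0
    · simp [ps, hd, hp]
    · simp [ps, hd, hp]

lemma hd_ps : ∀ a b : V, adj a b → hd a (ps a b) = b
  | (i, some s), (j, some t), h => by
    simp only [adj, kk] at h
    simp only [ps, hd, if_neg (inv_ne_zero h.1), inv_inv, lg_inv h.1, h.2]
    congr 1
    · ring
    · congr 1; ring
  | (i, none), (j, some _), h => by
    simp only [adj] at h
    simp only [ps, hd]
    congr 1; linear_combination -h
  | (i, some _), (j, none), h => by
    simp only [adj] at h
    simp only [ps, hd, if_true]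
    congr 1; linear_combination -h
  | (_, none), (_, none), h => h.elim

lemma adj_hd_hd : ∀ (a : V) (p r : F), adj (hd a p) (hd a r) ↔ kk (2 * a.1) (p - r)
  | (i, none), p, r => by
    simp only [hd, adj]
    rw [← kk_neg, neg_sub, show - -i - -i = 2 * i by ring]
  | (i, some s), p, r => by
    by_cases hp : p = 0 <;> by_cases hr : r = 0
    · simp [hd, adj, hp, hr, kk]
    · simp only [hd, hp, if_true, if_neg hr, adj, zero_sub, kk_neg]
      simp only [kk]
      constructor
      · intro h; exact ⟨hr, by linear_combination h⟩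
      · intro h; linear_combination h.2
    · simp only [hd, hr, if_true, if_neg hp, adj, sub_zero]
      simp only [kk]
      constructor
      · intro h; exact ⟨hp, by linear_combination h⟩
      · intro h; linear_combination h.2
    · simp only [hd, if_neg hp, if_neg hr, adj]
      rw [show s + r⁻¹ - (s + p⁻¹) = (p * r)⁻¹ * (p - r) by field_simp; ring]
      apply kk_mul (inv_ne_zero (mul_ne_zero hp hr))
      rw [lg_inv (mul_ne_zero hp hr), lg_mul hp hr]; ring

lemma sg_sg : ∀ d : D, sg (sg d) = d
  | ((i, none), t) => by simp [sg, hd, rv]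
  | ((i, some s), p) => by
    by_cases hp : p = 0
    · simp [sg, hd, rv, hp]
    · simp [sg, hd, rv, hp, lg_neg]

lemma hd_sg (d : D) : hd (sg d).1 (sg d).2 = d.1 := congrArg Prod.fst (sg_sg d)

open Classical in
lemma sum_nb (a : V) (f : V → ℝ) : (∑ b, if adj a b then f b else 0) = ∑ p, f (hd a p) := by
  rw [← sum_filter]
  symm
  apply sum_bij' (fun p _ => hd a p) (fun b _ => ps a b)
  · intro p _; simp [adj_hd]
  · intro b _; exact mem_univ _
  · intro p _; exact ps_hd a p
  · intro b hb; exact hd_ps a b (by simpa using hb)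
  · intro p _; rfl

lemma no_K4 (a b c d : V) (hab : adj a b) (hac : adj a c) (had : adj a d) (hbc : adj b c)
    (hbd : adj b d) (hcd : adj c d) : False := by
  rw [← hd_ps a b hab] at hbc hbd
  rw [← hd_ps a c hac] at hbc hcd
  rw [← hd_ps a d had] at hbd hcd
  rw [adj_hd_hd] at hbc hbd hcd
  refine sumfree _ _ hbc.1 hcd.1 ?_ (hbc.2.trans hcd.2.symm) ?_
  · rw [sub_add_sub_cancel]; exact hbd.1
  · rw [sub_add_sub_cancel]; exact hbd.2.trans hbc.2.symm

/-- the local operator -/
noncomputable def Aop (y : D → ℝ) (d : D) : ℝ :=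
  ∑ r : F, if kk (2 * d.1.1) (d.2 - r) then y (d.1, r) else 0

def Eig (θ : ℝ) (v : D → ℝ) : Prop := ∀ d, Aop v d + Aop v (sg d) = θ * v d

def Good (φ : D → D) : Prop :=
  (∀ (y : D → ℝ) d, Aop y (φ d) = Aop (fun e => y (φ e)) d) ∧ ∀ d, sg (φ d) = φ (sg d)

lemma Good.eig {φ : D → D} (h : Good φ) {θ : ℝ} {v : D → ℝ} (hv : Eig θ v) :
    Eig θ (fun e => v (φ e)) := by
  intro d
  rw [← h.1, ← h.1, ← h.2]
  exact hv (φ d)

lemma aop_aff (φ : D → D) (fv : V → V) (al be : V → F)
    (hφ : ∀ a p, φ (a, p) = (fv a, al a * p + be a))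
    (h : ∀ a, al a ≠ 0 ∧ lg (al a) + 2 * a.1 = 2 * (fv a).1) (y : D → ℝ) (d : D) :
    Aop y (φ d) = Aop (fun e => y (φ e)) d := by
  obtain ⟨a, p⟩ := d
  simp only [Aop, hφ]
  rw [← Equiv.sum_comp ((Equiv.mulLeft₀ (al a) (h a).1).trans (Equiv.addRight (be a)))]
  refine sum_congr rfl fun r _ => ?_
  simp only [Equiv.trans_apply, Equiv.mulLeft₀_apply, Equiv.coe_addRight]
  rw [show al a * p + be a - (al a * r + be a) = al a * (p - r) by ring]
  simp only [kk_mul (h a).1 (h a).2]

def tauV (u : F) : V → V
  | (i, none) => (i, none)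
  | (i, some s) => (i, some (s + u))
def tauB (u : F) : V → F
  | (_, none) => u
  | (_, some _) => 0
def tau (u : F) (d : D) : D := (tauV u d.1, 1 * d.2 + tauB u d.1)

lemma good_tau (u : F) : Good (tau u) := by
  refine ⟨aop_aff _ (tauV u) (fun _ => 1) (tauB u) (fun _ _ => rfl) ?_, ?_⟩
  · rintro ⟨i, _ | s⟩ <;> simp [tauV, lg_one]
  · rintro ⟨⟨i, _ | s⟩, p⟩
    · simp [tau, sg, hd, rv, tauV, tauB]
    · by_cases hp : p = 0
      · simp [tau, sg, hd, rv, tauV, tauB, hp]
      · simp [tau, sg, hd, rv, tauV, tauB, hp, add_right_comm]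

def muV : V → V
  | (i, none) => (i - 1, none)
  | (i, some s) => (i + 1, some (gp 4 * s))
noncomputable def muA : V → F
  | (_, none) => gp 4
  | (_, some _) => (gp 4)⁻¹
noncomputable def mu (d : D) : D := (muV d.1, muA d.1 * d.2 + 0)

lemma good_mu : Good mu := by
  have h0 := gp_ne 4
  have h6 : (6 : Z6) = 0 := rfl
  refine ⟨aop_aff _ muV muA (fun _ => 0) (fun _ _ => rfl) ?_, ?_⟩
  · rintro ⟨i, _ | s⟩
    · exact ⟨h0, by simp only [muA, muV, lg_gp]; linear_combination h6⟩
    · exact ⟨inv_ne_zero h0, by simp only [muA, muV, lg_inv h0, lg_gp]; linear_combination -h6⟩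
  · rintro ⟨⟨i, _ | s⟩, p⟩
    · simp only [mu, sg, hd, rv, muV, muA, add_zero, mul_zero]
      congr 2; ring
    · by_cases hp : p = 0
      · simp only [mu, sg, hd, rv, muV, muA, add_zero, mul_zero, hp, if_true]
        congr 2; ring
      · have h1 : (gp 4)⁻¹ * p ≠ 0 := mul_ne_zero (inv_ne_zero h0) hp
        simp only [mu, sg, hd, rv, muV, muA, add_zero, if_neg hp, if_neg h1,
          lg_mul (inv_ne_zero h0) hp, lg_inv h0, lg_gp]
        congr 2
        · linear_combination -h6
        · congr 1; field_simp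
        · ring

noncomputable def ioV : V → V
  | (i, none) => (i, some 0)
  | (i, some s) => if s = 0 then (i, none) else (i + lg s, some (-s⁻¹))
def ioA : V → F
  | (_, none) => -1
  | (_, some s) => if s = 0 then -1 else s * s
def ioB : V → F
  | (_, none) => 0
  | (_, some s) => s
noncomputable def io (d : D) : D := (ioV d.1, ioA d.1 * d.2 + ioB d.1)

lemma good_io : Good io := by
  refine ⟨aop_aff _ ioV ioA ioB (fun _ _ => rfl) ?_, ?_⟩
  · rintro ⟨i, _ | s⟩
    · simp [ioA, ioV, lg_neg, lg_one]
    · by_cases hs : s = 0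
      · simp [ioA, ioV, lg_neg, lg_one, hs]
      · simp only [ioA, ioV, if_neg hs, lg_mul hs hs]
        exact ⟨mul_ne_zero hs hs, by ring⟩
  · rintro ⟨⟨i, _ | s⟩, p⟩
    · by_cases hp : p = 0
      · simp [io, sg, hd, rv, ioV, ioA, ioB, hp]
      · simp only [io, sg, hd, rv, ioV, ioA, ioB, if_neg hp, neg_mul, one_mul, add_zero,
          neg_eq_zero, lg_neg, mul_zero, zero_add, neg_neg, inv_neg]
        congr 2; ring
    · by_cases hs : s = 0
      · by_cases hp : p = 0
        · simp [io, sg, hd, rv, ioV, ioA, ioB, hp, hs]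
        · simp only [io, sg, hd, rv, ioV, ioA, ioB, if_neg hp, hs, if_true, neg_mul, one_mul,
            add_zero, zero_add, if_neg (inv_ne_zero hp), lg_inv hp, inv_inv]
          congr 2
          · ring
          · field_simp; ring
      · by_cases hp : p = 0
        · simp only [io, sg, hd, rv, ioV, ioA, ioB, hp, if_neg hs, if_true, mul_zero, zero_add,
            neg_mul, one_mul, add_zero, neg_add_cancel]
          congr 2; ring
        · by_cases ht : s + p⁻¹ = 0
          · have h1 : s * s * p + s = 0 := by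
              have : s * p + 1 = 0 := by
                have := congrArg (· * p) ht
                simpa [add_mul, inv_mul_cancel₀ hp] using this
              linear_combination s * this
            have h2 : p = -s⁻¹ := by
              have : s * p + 1 = 0 := by
                have := congrArg (· * p) ht
                simpa [add_mul, inv_mul_cancel₀ hp] using this
              field_simp; linear_combination this
            simp only [io, sg, hd, rv, ioV, ioA, ioB, if_neg hp, if_neg hs, ht, h1, if_true,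
              neg_mul, one_mul, add_zero, neg_neg]
            congr 2
            · rw [h2, lg_neg, lg_inv hs]; ring
            · exact h2.symm
          · have h3 : s * s * p + s = s * (p * (s + p⁻¹)) := by field_simp
            have h1 : s * s * p + s ≠ 0 := by
              rw [h3]; exact mul_ne_zero hs (mul_ne_zero hp ht)
            have h4 : s * p + 1 ≠ 0 := by
              intro h; apply h1; linear_combination s * h
            simp only [io, sg, hd, rv, ioV, ioA, ioB, if_neg hp, if_neg hs, if_neg ht, if_neg h1]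
            congr 2
            · rw [h3, lg_mul hs (mul_ne_zero hp ht), lg_mul hp ht]; ring
            · congr 1
              rw [show s * s * p + s = s * (s * p + 1) by ring,
                show s + p⁻¹ = (s * p + 1) * p⁻¹ by field_simp]
              field_simp; ring
            · field_simp; ring

lemma reach (P : D → Prop) (h0 : P ((0, none), 0)) (hP : ∀ φ, Good φ → ∀ d, P d → P (φ d)) :
    ∀ d, P d := by
  have h1 : ∀ n : ℕ, P ((-(n : Z6), none), 0) := by
    intro n
    induction n with
    | zero => simpa using h0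
    | succ n ih =>
      have := hP _ good_mu _ ih
      simp only [mu, muV, muA, mul_zero, add_zero] at this
      rw [show (-((n + 1 : ℕ) : Z6)) = -(n : Z6) - 1 by push_cast; ring]
      exact this
  have h2 : ∀ (i : Z6) (t : F), P ((i, none), t) := by
    intro i t
    have h := h1 (-i).val
    rw [ZMod.natCast_zmod_val, neg_neg] at h
    have := hP _ (good_tau t) _ h
    simpa [tau, tauV, tauB] using this
  have h3 : ∀ (i : Z6) (p : F), P ((i, some 0), p) := by
    intro i p
    have := hP _ good_io _ (h2 i (-p))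
    simpa [io, ioV, ioA, ioB] using this
  rintro ⟨⟨i, _ | s⟩, p⟩
  · exact h2 i p
  · have := hP _ (good_tau s) _ (h3 i p)
    simpa [tau, tauV, tauB] using this

end Pool.Agent.Lib.MP_af4e44_co
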