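import Pool.Agent.Lib.MP_af4e44_co.Quad

set_option autoImplicit false

namespace Pool.Agent.Lib.MP_af4e44_co

open Finset

inductive Row where
  | gen (i a : Z6)
  | zer (i : Z6)
  | inf (i : Z6)

def rp (p : F) : F := if p = 0 then 0 else gp (lg p)

def rowOf : V → Row
  | (i, none) => .inf i
  | (i, some s) => if s = 0 then .zer i else .gen i (lg s)

def posOf : D → F
  | ((_, none), t) => rp t
  | ((_, some s), p) => if s = 0 then rp p else p * s

def rho : Row → F → F
  | .gen _ _, r => r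
  | .zer _, r => rp r
  | .inf _, r => rp r

def sigY : Row → F → Row
  | .gen i a, r => if r = 0 then .inf (-i) else if r = -1 then .zer (-a - i)
      else .gen (lg r - a - i) (a + lg (r + 1) - lg r)
  | .zer i, r => if r = 0 then .inf (-i) else .gen (lg r - i) (- lg r)
  | .inf i, r => if r = 0 then .zer (-i) else .gen (-i) (lg r)

def sigZ : Row → F → F
  | .gen _ a, r => if r = 0 then gp a else if r = -1 then gp (-a) else -(r + 1)
  | .zer _, r => if r = 0 then 0 else -1
  | .inf _, _ => 0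

def kap : Row → Z6
  | .gen i a => 2 * i + a
  | .zer i => 2 * i
  | .inf i => 2 * i

lemma rp_mul {al : F} (h0 : al ≠ 0) (h : lg al = 0) (r : F) : rp (al * r) = rp r := by
  by_cases hr : r = 0
  · simp [hr]
  · simp [rp, hr, h0, lg_mul h0 hr, h]

lemma exists_al (p : F) : ∃ al : F, al ≠ 0 ∧ lg al = 0 ∧ p = al * rp p := by
  by_cases hp : p = 0
  · exact ⟨1, one_ne_zero, lg_one, by simp [rp, hp]⟩
  · have h := gp_ne (lg p)
    refine ⟨p * (gp (lg p))⁻¹, mul_ne_zero hp (inv_ne_zero h), ?_, ?_⟩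
    · rw [lg_mul hp (inv_ne_zero h), lg_inv h, lg_gp]; ring
    · simp only [rp, if_neg hp]; field_simp

lemma red : ∀ d : D, ∃ al : F, al ≠ 0 ∧ lg al + kap (rowOf d.1) = 2 * d.1.1 ∧
    d.2 = al * posOf d ∧ ∀ r : F, posOf (d.1, al * r) = rho (rowOf d.1) r ∧
      rowOf (sg (d.1, al * r)).1 = sigY (rowOf d.1) r ∧
      posOf (sg (d.1, al * r)) = sigZ (rowOf d.1) r
  | ((i, none), t) => by
    obtain ⟨al, h0, h1, h2⟩ := exists_al t
    refine ⟨al, h0, by simp [h1, rowOf, kap], h2, fun r => ⟨rp_mul h0 h1 r, ?_, ?_⟩⟩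
    · by_cases hr : r = 0
      · simp [sg, hd, rowOf, sigY, hr]
      · simp [sg, hd, rowOf, sigY, hr, h0, lg_mul h0 hr, h1]
    · simp [sg, hd, rv, rowOf, sigZ, posOf, rp]
  | ((i, some s), p) => by
    by_cases hs : s = 0
    · subst hs
      obtain ⟨al, h0, h1, h2⟩ := exists_al p
      refine ⟨al, h0, by simp [h1, rowOf, kap], by simpa [posOf] using h2,
        fun r => ⟨by simpa [posOf, rowOf, rho] using rp_mul h0 h1 r, ?_, ?_⟩⟩
      · by_cases hr : r = 0
        · simp [sg, hd, rowOf, sigY, hr]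
        · have h3 := mul_ne_zero h0 hr
          simp only [sg, hd, rowOf, sigY, if_neg hr, if_neg h3, if_true, zero_add,
            if_neg (inv_ne_zero h3), lg_inv h3, lg_mul h0 hr, h1]
      · by_cases hr : r = 0
        · simp [sg, hd, rv, rowOf, sigZ, posOf, rp, hr]
        · have h3 := mul_ne_zero h0 hr
          simp only [sg, hd, rv, rowOf, sigZ, posOf, if_neg hr, if_neg h3, if_true, zero_add,
            if_neg (inv_ne_zero h3)]
          field_simp
    · have h0 := inv_ne_zero hs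
      refine ⟨s⁻¹, h0, ?_, ?_, fun r => ⟨?_, ?_⟩⟩
      · simp only [rowOf, if_neg hs, kap, lg_inv hs]; ring
      · simp only [posOf, if_neg hs]; field_simp
      · simp only [posOf, rowOf, if_neg hs, rho]; field_simp
      · by_cases hr : r = 0
        · simp [sg, hd, rv, rowOf, sigY, sigZ, posOf, rp, hr, hs]
        · have h3 := mul_ne_zero h0 hr
          by_cases hr1 : r = -1
          · have h4 : s + (s⁻¹ * r)⁻¹ = 0 := by rw [hr1]; field_simp; ring
            have h5 : lg (s⁻¹ * r) = - lg s := by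
              rw [hr1, mul_neg, mul_one, lg_neg, lg_inv hs]
            simp only [sg, hd, rv, rowOf, sigY, sigZ, posOf, if_neg hs, if_neg hr, if_neg h3, h4,
              if_true, if_pos hr1, h5, rp, neg_eq_zero, lg_neg, and_self]
          · have h6 : r + 1 ≠ 0 := fun h => hr1 (by linear_combination h)
            have h7 : s + (s⁻¹ * r)⁻¹ = s * ((r + 1) * r⁻¹) := by field_simp
            have h4 : s * ((r + 1) * r⁻¹) ≠ 0 := mul_ne_zero hs (mul_ne_zero h6 (inv_ne_zero hr))
            simp only [sg, hd, rv, rowOf, sigY, sigZ, posOf, if_neg hs, if_neg hr, if_neg h3, h7,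
              if_neg h4, if_neg hr1, lg_mul h0 hr, lg_inv hs, lg_inv hr,
              lg_mul hs (mul_ne_zero h6 (inv_ne_zero hr)), lg_mul h6 (inv_ne_zero hr)]
            refine ⟨?_, ?_⟩
            · congr 1 <;> ring
            · field_simp

def stepF (be ga : ℕ) (W G : Row → F → ℤ) (R : Row) (p : F) : ℤ :=
  (∑ r : F, if kk (kap R) (p - r) then W R (rho R r) + W (sigY R r) (sigZ R r) else 0)
    - be * W R p - ga * G R p

def lift (W : Row → F → ℤ) (d : D) : ℝ := (W (rowOf d.1) (posOf d) : ℤ)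

lemma lift_step (be ga : ℕ) (W G : Row → F → ℤ) (d : D) :
    lift (stepF be ga W G) d =
      Aop (fun e => lift W e + lift W (sg e)) d - be * lift W d - ga * lift G d := by
  obtain ⟨al, h0, h1, h2, h3⟩ := red d
  simp only [lift, stepF, Aop]
  push_cast
  congr 2
  rw [← Equiv.sum_comp (Equiv.mulLeft₀ al h0)
    (fun r => if kk (2 * d.1.1) (d.2 - r) then
      ((W (rowOf d.1) (posOf (d.1, r)) : ℤ) : ℝ) +
        ((W (rowOf (sg (d.1, r)).1) (posOf (sg (d.1, r))) : ℤ) : ℝ) else 0)]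
  refine sum_congr rfl fun r _ => ?_
  simp only [Equiv.mulLeft₀_apply]
  rw [(h3 r).1, (h3 r).2.1, (h3 r).2.2, show d.2 - al * r = al * (posOf d - r) by
    rw [mul_sub, ← h2]]
  simp only [kk_mul h0 h1]

lemma pair_step {θ : ℝ} {v : D → ℝ} (hv : Eig θ v) (be ga : ℕ) (W G : Row → F → ℤ) :
    ∑ d, lift (stepF be ga W G) d * v d =
      (θ - be) * ∑ d, lift W d * v d - ga * ∑ d, lift G d * v d := by
  simp only [lift_step, sub_mul, sum_sub_distrib, eig_pair hv, mul_assoc, ← mul_sum]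

def rs (W : Row → F → ℤ) (R : Row) : ℤ := ∑ r : F, |W R (rho R r)|

def l1F (W : Row → F → ℤ) : ℤ :=
  ∑ i : Z6, (16 * ∑ a : Z6, rs W (.gen i a) + rs W (.zer i) + rs W (.inf i))

lemma sum_abs_lift (W : Row → F → ℤ) : ∑ d, |lift W d| = (l1F W : ℤ) := by
  have h1 : ∀ a : V, ∑ p : F, |lift W (a, p)| = (rs W (rowOf a) : ℤ) := by
    intro a
    obtain ⟨al, h0, -, -, h3⟩ := red (a, 0)
    rw [← Equiv.sum_comp (Equiv.mulLeft₀ al h0)]
    simp only [Equiv.mulLeft₀_apply, lift, rs]
    push_cast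
    refine sum_congr rfl fun r _ => ?_
    rw [(h3 r).1]
  rw [Fintype.sum_prod_type (α₁ := V) (α₂ := F)]
  simp only [h1]
  rw [Fintype.sum_prod_type (α₁ := Z6) (α₂ := Option F)]
  simp only [l1F]
  push_cast
  refine sum_congr rfl fun i _ => ?_
  rw [Fintype.sum_option]
  have h2 : ∀ s : F, ((rs W (rowOf (i, some s)) : ℤ) : ℝ) =
      (∑ a : Z6, if kk a (0 - s) then ((rs W (.gen i a) : ℤ) : ℝ) else 0) +
        if s = 0 then ((rs W (.zer i) : ℤ) : ℝ) else 0 := by
    intro s
    by_cases hs : s = 0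
    · simp [rowOf, hs, kk]
    · simp [rowOf, hs, kk, lg_neg]
  simp only [h2, sum_add_distrib]
  rw [sum_comm]
  simp only [cntR, sum_ite_eq', mem_univ, if_true, rowOf, ← mul_sum]
  ring

lemma pair_le (W : Row → F → ℤ) (v : D → ℝ) (M : ℝ) (hM : ∀ d, |v d| ≤ M) :
    |∑ d, lift W d * v d| ≤ (l1F W : ℤ) * M := by
  rw [← sum_abs_lift, sum_mul]
  refine (abs_sum_le_sum_abs _ _).trans (sum_le_sum fun d _ => ?_)
  rw [abs_mul]
  exact mul_le_mul_of_nonneg_left (hM d) (abs_nonneg _)

def W0 : Row → F → ℤ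
  | .gen _ _, _ => 0
  | .zer _, _ => 0
  | .inf i, r => if i = 0 ∧ r = 0 then 1 else 0

lemma pair_W0 (v : D → ℝ) : ∑ d, lift W0 d * v d = v ((0, none), 0) := by
  rw [sum_eq_single ((0, none), 0)]
  · simp [lift, W0, rowOf, posOf, rp]
  · rintro ⟨⟨i, _ | s⟩, p⟩ _ h
    · have : ¬ (i = 0 ∧ rp p = 0) := by
        rintro ⟨h1, h2⟩
        apply h
        by_cases hp : p = 0
        · rw [h1, hp]
        · simp only [rp, if_neg hp] at h2
          exact absurd h2 (gp_ne _)
      simp [lift, W0, rowOf, posOf, this]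
    · by_cases hs : s = 0 <;> simp [lift, W0, rowOf, hs]
  · intro h; exact absurd (mem_univ _) h

def Bd (W : Row → F → ℤ) (b : ℤ) : Prop := ∀ R r, |W R r| ≤ b

lemma cntZ (c : Z6) (p : F) (t : ℤ) : (∑ r : F, if kk c (p - r) then t else 0) = 16 * t := by
  have := cntR c p t
  exact_mod_cast this

lemma bd_step (be ga : ℕ) {W G : Row → F → ℤ} {b b' : ℤ} (hW : Bd W b) (hG : Bd G b') :
    Bd (stepF be ga W G) ((32 + be) * b + ga * b') := by
  intro R p
  unfold stepF
  have h1 : |∑ r : F, if kk (kap R) (p - r) then W R (rho R r) + W (sigY R r) (sigZ R r) else 0|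
      ≤ 16 * (2 * b) := by
    rw [← cntZ (kap R) p (2 * b)]
    refine (abs_sum_le_sum_abs _ _).trans (sum_le_sum fun r _ => ?_)
    split_ifs
    · have := hW R (rho R r)
      have := hW (sigY R r) (sigZ R r)
      have := abs_add_le (W R (rho R r)) (W (sigY R r) (sigZ R r))
      linarith
    · simp
  have h2 : |(be : ℤ) * W R p| ≤ be * b := by
    rw [abs_mul, Nat.abs_cast]; exact mul_le_mul_of_nonneg_left (hW R p) (by positivity)
  have h3 : |(ga : ℤ) * G R p| ≤ ga * b' := by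
    rw [abs_mul, Nat.abs_cast]; exact mul_le_mul_of_nonneg_left (hG R p) (by positivity)
  rw [abs_le] at h1 h2 h3 ⊢
  constructor <;> linarith [h1.1, h1.2, h2.1, h2.2, h3.1, h3.2]

end Pool.Agent.Lib.MP_af4e44_co
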