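import Pool.Agent.Lib.MP_af4e44_co.Pack
import Pool.Agent.Lib.MP_af4e44_co.Check

set_option autoImplicit false

namespace Pool.Agent.Lib.MP_af4e44_co

open Finset

def PP (d : D) : Prop :=
  ∀ (v : D → ℝ) (θ M : ℝ), θ ≤ -32 / 3 → Eig θ v → (∀ e, |v e| ≤ M) → v d ≠ 0 → |v d| < M

lemma PP_base : PP ((0, none), 0) := by
  intro v θ M hθ hv hM h0
  have h1 := start_sound hv M hM _ check
  have h2 := (rc_final θ _ hθ).2 h0
  have h3 := h2.trans_le h1
  push_cast at h3
  linarith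

lemma PP_all (d : D) : PP d :=
  reach PP PP_base (fun φ hφ _ h v θ M hθ hv hM h0 =>
    h (fun e => v (φ e)) θ M hθ (hφ.eig hv) (fun _ => hM _) h0) d

lemma zero_of_max {D : Type*} [Fintype D] (v : D → ℝ)
    (h : ∀ d, (∀ e, |v e| ≤ |v d|) → v d ≠ 0 → |v d| < |v d|) : v = 0 := by
  funext e
  obtain ⟨d, -, hd⟩ := exists_max_image univ (fun d => |v d|) ⟨e, mem_univ _⟩
  have h0 : v d = 0 := by
    by_contra h'
    exact lt_irrefl _ (h d (fun e => hd e (mem_univ _)) h')
  have := hd e (mem_univ _)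
  rw [h0, abs_zero] at this
  exact abs_nonpos_iff.mp this

lemma no_eig {θ : ℝ} (hθ : θ ≤ -32 / 3) {v : D → ℝ} (hv : Eig θ v) : v = 0 :=
  zero_of_max v (fun d h => PP_all d v θ _ hθ hv h)

lemma arrows (c : V → V → Bool) (hc : ∀ x y, c x y = c y x) :
    ∃ a b d : V, adj a b ∧ adj b d ∧ adj a d ∧ c a b = c b d ∧ c b d = c a d := by
  by_contra h
  push Not at h
  obtain ⟨θ, hθ, v, hv0, hv⟩ := exists_Eig (fun a b => if c a b then 1 else -1)
    (fun a b => by rw [hc]) (fun a b => by split_ifs <;> norm_num)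
    (fun a b d hab had hbd => by
      have := h a b d hab hbd had
      cases h1 : c a b <;> cases h2 : c b d <;> cases h3 : c a d <;> simp_all)
  exact hv0 (no_eig hθ hv)

lemma card_V : Fintype.card V = 588 := by simp [ZMod.card]

noncomputable def eV : Fin 588 ≃ V := (Fintype.equivFinOfCardEq card_V).symm

def GG : SimpleGraph (Fin 588) where
  Adj a b := adj (eV a) (eV b)
  symm := ⟨fun _ _ h => adj_symm _ _ h⟩
  loopless := ⟨fun _ h => adj_irrefl _ h⟩

lemma GG_free : GG.CliqueFree 4 := by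
  intro s hs
  obtain ⟨a, b, c, d, hab, hac, had, hbc, hbd, hcd, rfl⟩ := Finset.card_eq_four.mp hs.2
  have h := hs.1
  exact no_K4 (eV a) (eV b) (eV c) (eV d) (h (by simp) (by simp) hab) (h (by simp) (by simp) hac)
    (h (by simp) (by simp) had) (h (by simp) (by simp) hbc) (h (by simp) (by simp) hbd)
    (h (by simp) (by simp) hcd)

lemma GG_arrows (c : Fin 588 → Fin 588 → Bool) (hc : ∀ x y, c x y = c y x) :
    ∃ a b d : Fin 588, GG.Adj a b ∧ GG.Adj b d ∧ GG.Adj a d ∧ c a b = c b d ∧ c b d = c a d := by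
  obtain ⟨a, b, d, h1, h2, h3, h4, h5⟩ :=
    arrows (fun x y => c (eV.symm x) (eV.symm y)) (fun x y => hc _ _)
  exact ⟨eV.symm a, eV.symm b, eV.symm d, by simpa [GG] using h1, by simpa [GG] using h2,
    by simpa [GG] using h3, h4, h5⟩

end Pool.Agent.Lib.MP_af4e44_co
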