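import Pool.Agent.Lib.MP_af4e44_co.Lift

set_option autoImplicit false

namespace Pool.Agent.Lib.MP_af4e44_co

open Finset

lemma frc_eq {α : Type} (x : ℕ) (k : ℕ → α) : frc x k = k x := rfl

lemma mk_eq {α : Type} (f : ℕ → ℕ) (n : ℕ) : ∀ (l : List ℕ) (k : List ℕ → α),
    mk f n l k = k ((List.range n).map f ++ l) := by
  induction n with
  | zero => intro l k; rfl
  | succ n ih =>
    intro l k
    show frc (f n) (fun x => mk f n (x :: l) k) = _
    rw [frc_eq, ih, List.range_succ, List.map_append, List.append_assoc]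
    rfl

lemma gt_eq (l : List ℕ) : ∀ n, gt l n = l.getD n 0 := by
  induction l with
  | nil => intro n; simp [gt]
  | cons a t ih =>
    intro n
    cases n with
    | zero => rfl
    | succ n => show gt t n = _; rw [ih]; rfl

lemma gt_mk (f : ℕ → ℕ) (n R : ℕ) (h : R < n) : gt ((List.range n).map f ++ []) R = f R := by
  rw [gt_eq, List.append_nil, List.getD_eq_getElem _ _ (by simpa using h)]
  simp

lemma XX_pow (j : ℕ) : XX ^ j = 2 ^ (312 * j) := by rw [XX, ← pow_mul]

lemma hor_eq (f : ℕ → ℕ) (n : ℕ) : hor f n = ∑ j ∈ range n, f j * XX ^ j := by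
  induction n with
  | zero => rfl
  | succ n ih =>
    show (f n) <<< (312 * n) + hor f n = _
    rw [ih, sum_range_succ, Nat.shiftLeft_eq, XX_pow, add_comm]

lemma sumN_eq (f : ℕ → ℕ) (n : ℕ) : sumN f n = ∑ j ∈ range n, f j := by
  induction n with
  | zero => rfl
  | succ n ih =>
    show f n + sumN f n = _
    rw [ih, sum_range_succ, add_comm]

lemma dg_eq (N p : ℕ) : dg N p = N / XX ^ p % XX := by
  show (N >>> (312 * p)) % XX = _
  rw [Nat.shiftRight_eq_div_pow, XX_pow]

lemma sum_lt (X : ℕ) (g : ℕ → ℕ) (n : ℕ) (h : ∀ j < n, g j < X) :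
    ∑ j ∈ range n, g j * X ^ j < X ^ n := by
  induction n with
  | zero => simp
  | succ n ih =>
    rw [sum_range_succ, pow_succ]
    have h1 := ih (fun j hj => h j (by omega))
    have h2 : (g n + 1) * X ^ n ≤ X * X ^ n := Nat.mul_le_mul_right _ (h n (by omega))
    nlinarith

lemma digit_sum (X : ℕ) (g : ℕ → ℕ) (n : ℕ) (h : ∀ j < n, g j < X) (p : ℕ) (hp : p < n) :
    (∑ j ∈ range n, g j * X ^ j) / X ^ p % X = g p := by
  induction n with
  | zero => omega
  | succ n ih =>
    have hX : 0 < X := lt_of_le_of_lt (Nat.zero_le _) (h n (by omega))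
    rw [sum_range_succ]
    rcases Nat.lt_succ_iff_lt_or_eq.mp hp with h1 | h1
    · obtain ⟨k, rfl⟩ := Nat.exists_eq_add_of_lt h1
      rw [show g (p + k + 1) * X ^ (p + k + 1) = (g (p + k + 1) * X ^ k * X) * X ^ p by ring,
        Nat.add_mul_div_right _ _ (pow_pos hX p), Nat.add_mul_mod_self_right]
      exact ih (fun j hj => h j (by omega)) h1
    · subst h1
      rw [Nat.add_mul_div_right _ _ (pow_pos hX p),
        Nat.div_eq_of_lt (sum_lt X g p (fun j hj => h j (by omega))), zero_add,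
        Nat.mod_eq_of_lt (h p (by omega))]

lemma sumF {M : Type*} [AddCommMonoid M] (g : ℕ → M) : ∑ r : F, g r.val = ∑ j ∈ range 97, g j :=
  Fin.sum_univ_eq_sum_range g 97

lemma sumZ6 {M : Type*} [AddCommMonoid M] (g : ℕ → M) : ∑ r : Z6, g r.val = ∑ j ∈ range 6, g j :=
  Fin.sum_univ_eq_sum_range g 6

def pack (f : F → ℕ) : ℕ := ∑ r : F, f r * XX ^ r.val

lemma hor_pack (g : ℕ → ℕ) : hor g 97 = pack (fun r => g r.val) := by
  rw [hor_eq, pack, sumF (fun j => g j * XX ^ j)]

lemma pack_range (f : F → ℕ) : pack f = ∑ j ∈ range 97, f (j : F) * XX ^ j := by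
  rw [← sumF (fun j => f (j : F) * XX ^ j), pack]
  simp only [ZMod.natCast_zmod_val]

lemma dg_pack (f : F → ℕ) (h : ∀ r, f r < XX) (r : F) : dg (pack f) r.val = f r := by
  rw [dg_eq, pack_range, digit_sum XX (fun j => f (j : F)) 97 (fun j _ => h _) _ (ZMod.val_lt r),
    ZMod.natCast_zmod_val]

lemma pack_add (f g : F → ℕ) : pack f + pack g = pack (fun r => f r + g r) := by
  simp only [pack, add_mul, sum_add_distrib]

lemma mul_pack (c : ℕ) (f : F → ℕ) : c * pack f = pack (fun r => c * f r) := by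
  simp only [pack, mul_sum, mul_assoc]

lemma MM_eq : MM + 1 = XX ^ 97 := by
  rw [XX_pow, MM]
  exact Nat.sub_add_cancel (Nat.one_le_two_pow)

lemma XX_pos : 0 < XX := by decide +kernel
lemma XC : XX = 256 * CC := by decide +kernel
lemma CC_pos : 0 < CC := by decide +kernel
lemma CC_big : (44 : ℤ) ^ (52 + 1) * 2 ≤ CC := by decide +kernel
lemma CC_big' : (88 : ℤ) ≤ CC := by decide +kernel

attribute [local irreducible] XX CC MM

lemma pack_lt (f : F → ℕ) (h : ∀ r, f r + 2 < XX) : pack f < MM := by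
  have h1 : pack (fun r => f r + 2) < XX ^ 97 := by
    rw [pack_range]; exact sum_lt XX (fun j => f (j : F) + 2) 97 (fun j _ => h _)
  have h2 : 2 ≤ pack (fun _ => 2) := by
    have := single_le_sum (f := fun r : F => 2 * XX ^ r.val) (fun _ _ => Nat.zero_le _)
      (mem_univ (0 : F))
    simpa [pack] using this
  rw [← pack_add, ← MM_eq] at h1
  omega

lemma pow_mod (n : ℕ) : XX ^ n ≡ XX ^ (n % 97) [MOD MM] := by
  have h : XX ^ 97 ≡ 1 [MOD MM] := by
    rw [← MM_eq]; simp [Nat.ModEq]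
  conv_lhs => rw [← Nat.div_add_mod n 97, pow_add, pow_mul]
  have := (h.pow (n / 97)).mul_right (XX ^ (n % 97))
  simpa using this

lemma pack_mul (u k : F → ℕ) :
    pack u * pack k ≡ pack (fun p => ∑ r : F, k (p - r) * u r) [MOD MM] := by
  have h1 : pack (fun p => ∑ r : F, k (p - r) * u r) =
      ∑ r : F, ∑ s : F, u r * k s * XX ^ (r + s).val := by
    simp only [pack, sum_mul]
    rw [sum_comm]
    refine sum_congr rfl fun r _ => ?_
    rw [← Equiv.sum_comp (Equiv.addLeft r)]
    refine sum_congr rfl fun s _ => ?_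
    simp only [Equiv.coe_addLeft, add_sub_cancel_left]
    ring
  rw [h1]
  simp only [pack, sum_mul_sum]
  refine Nat.ModEq.sum fun r _ => Nat.ModEq.sum fun s _ => ?_
  rw [show u r * XX ^ r.val * (k s * XX ^ s.val) = u r * k s * XX ^ (r.val + s.val) by ring,
    ZMod.val_add]
  exact (pow_mod _).mul_left _

def idx : Row → ℕ
  | .gen i a => 6 * i.val + a.val
  | .zer i => 36 + i.val
  | .inf i => 42 + i.val

lemma idx_lt : ∀ R, idx R < 48
  | .gen i a => by have := ZMod.val_lt i; have := ZMod.val_lt a; simp only [idx]; omega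
  | .zer i => by have := ZMod.val_lt i; simp only [idx]; omega
  | .inf i => by have := ZMod.val_lt i; simp only [idx]; omega

lemma link_gen : ∀ (i a : Z6) (r : F), sigR (idx (.gen i a)) r.val = idx (sigY (.gen i a) r) ∧
    sigP (idx (.gen i a)) r.val = (sigZ (.gen i a) r).val := by decide +kernel
lemma link_zer : ∀ (i : Z6) (r : F), sigR (idx (.zer i)) r.val = idx (sigY (.zer i) r) ∧
    sigP (idx (.zer i)) r.val = (sigZ (.zer i) r).val := by decide +kernel
lemma link_inf : ∀ (i : Z6) (r : F), sigR (idx (.inf i)) r.val = idx (sigY (.inf i) r) ∧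
    sigP (idx (.inf i)) r.val = (sigZ (.inf i) r).val := by decide +kernel
lemma link : ∀ (R : Row) (r : F), sigR (idx R) r.val = idx (sigY R r) ∧
    sigP (idx R) r.val = (sigZ R r).val
  | .gen i a, r => link_gen i a r
  | .zer i, r => link_zer i r
  | .inf i, r => link_inf i r
lemma link_rp : ∀ r : F, rpN r.val = (rp r).val := by decide +kernel
lemma link_kap : ∀ R : Row, kapN (idx R) = (kap R).val
  | .gen i a => by revert i a; decide +kernel
  | .zer i => by revert i; decide +kernel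
  | .inf i => by revert i; decide +kernel
lemma link_k : ∀ (c : Z6) (r : F),
    cond (Nat.beq r.val 0) 0 (cond (Nat.beq (lgN r.val) c.val) 1 0) = if kk c r then 1 else 0 := by
  decide +kernel
lemma blt_idx : ∀ R : Row, (Nat.blt (idx R) 36 = true ∧ ∀ r, rho R r = r) ∨
    (Nat.blt (idx R) 36 = false ∧ ∀ r, rho R r = rp r)
  | .gen i a => Or.inl ⟨by revert i a; decide +kernel, fun _ => rfl⟩
  | .zer i => Or.inr ⟨by revert i; decide +kernel, fun _ => rfl⟩
  | .inf i => Or.inr ⟨by revert i; decide +kernel, fun _ => rfl⟩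

lemma link_rho (R : Row) (r : F) : rhoP (idx R) r.val = (rho R r).val := by
  rcases blt_idx R with ⟨h1, h2⟩ | ⟨h1, h2⟩
  · rw [rhoP, h1, h2]; rfl
  · rw [rhoP, h1, h2, ← link_rp]; rfl

lemma kp_eq (c : Z6) : kp c.val = pack (fun r => if kk c r then 1 else 0) := by
  rw [kp, hor_pack]
  simp only [link_k]

lemma ones_eq : ones = pack (fun _ => 1) := by rw [ones, hor_pack]

def yN (W : Row → F → ℤ) (R : Row) (r : F) : ℕ := (W R r + CC).toNat

def Rep (st : List ℕ) (W : Row → F → ℤ) : Prop := ∀ R, gt st (idx R) = pack (yN W R)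

lemma yN_cast {W : Row → F → ℤ} (h : Bd W CC) (R : Row) (r : F) : (yN W R r : ℤ) = W R r + CC := by
  have := (abs_le.mp (h R r)).1
  unfold yN
  omega

lemma yN_le {W : Row → F → ℤ} (h : Bd W CC) (R : Row) (r : F) : yN W R r ≤ 2 * CC := by
  have h1 := (abs_le.mp (h R r)).2
  have h2 := yN_cast h R r
  omega


lemma dg_rep {st : List ℕ} {W : Row → F → ℤ} (hr : Rep st W) (h : Bd W CC) (R : Row) (r : F) :
    dg (gt st (idx R)) r.val = yN W R r := by
  rw [hr, dg_pack]
  intro r
  have := yN_le h R r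
  have := CC_pos
  rw [XC]; omega

lemma row_rep (be ga : ℕ) (hbg : 31 ≤ be + ga) {st pv : List ℕ} {W G : Row → F → ℤ}
    (hst : Rep st W) (hpv : Rep pv G) (hW : Bd W CC) (hG : Bd G CC)
    (hN : Bd (stepF be ga W G) CC) (R : Row) :
    rowN be ga st pv (idx R) = pack (yN (stepF be ga W G) R) := by
  have h1 : cond (Nat.blt (idx R) 36) (gt st (idx R))
      (hor (fun j => dg (gt st (idx R)) (rpN j)) 97) = pack (fun r => yN W R (rho R r)) := by
    rcases blt_idx R with ⟨h1, h2⟩ | ⟨h1, h2⟩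
    · rw [h1, cond_true, hst]; simp only [h2]
    · rw [h1, cond_false, hor_pack]; simp only [h2, link_rp, dg_rep hst hW]
  have h2 : hor (fun j => dg (gt st (sigR (idx R) j)) (sigP (idx R) j)) 97 =
      pack (fun r => yN W (sigY R r) (sigZ R r)) := by
    rw [hor_pack]; simp only [(link R _).1, (link R _).2, dg_rep hst hW]
  set u : F → ℕ := fun r => yN W R (rho R r) + yN W (sigY R r) (sigZ R r) with hu
  set cv : F → ℕ := fun p => ∑ r : F, (if kk (kap R) (p - r) then 1 else 0) * u r with hcv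
  have hcast : ∀ p, (cv p : ℤ) = (∑ r : F, if kk (kap R) (p - r) then
      W R (rho R r) + W (sigY R r) (sigZ R r) else 0) + 32 * CC := by
    intro p
    rw [show (32 * CC : ℤ) = 16 * (2 * CC) by ring, ← cntZ (kap R) p (2 * CC), ← sum_add_distrib]
    simp only [hcv, hu]
    push_cast
    refine sum_congr rfl fun r _ => ?_
    rw [yN_cast hW, yN_cast hW]
    split_ifs <;> ring
  have hle : ∀ p, cv p + 2 < XX := by
    intro p
    have h3 : (cv p : ℤ) ≤ 16 * (4 * CC) := by
      rw [← cntZ (kap R) p (4 * CC)]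
      simp only [hcv, hu]
      push_cast
      refine sum_le_sum fun r _ => ?_
      have a1 := yN_le hW R (rho R r)
      have a2 := yN_le hW (sigY R r) (sigZ R r)
      split_ifs <;> omega
    have := CC_pos
    rw [XC]; omega
  have h4 : (pack u * kp (kapN (idx R))) % MM = pack cv := by
    rw [link_kap, kp_eq]
    have := pack_mul u (fun r => if kk (kap R) r then 1 else 0)
    unfold Nat.ModEq at this
    rw [this, Nat.mod_eq_of_lt (pack_lt _ hle)]
  unfold rowN
  rw [h1, h2, pack_add, h4, hst, hpv, ones_eq, mul_pack, mul_pack, mul_pack, pack_add, pack_add]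
  apply Nat.sub_eq_of_eq_add
  rw [pack_add]
  refine congrArg pack (funext fun p => ?_)
  have e1 := hcast p
  have e2 := yN_cast hN R p
  have e3 := yN_cast hW R p
  have e4 := yN_cast hG R p
  unfold stepF at e2
  have e5 : ((be + ga - 31 : ℕ) : ℤ) = be + ga - 31 := by omega
  zify
  rw [e5, e1, e3, e4]
  unfold stepF
  rw [e2]
  ring

lemma step_rep (be ga : ℕ) (hbg : 31 ≤ be + ga) {st pv : List ℕ} {W G : Row → F → ℤ}
    (hst : Rep st W) (hpv : Rep pv G) (hW : Bd W CC) (hG : Bd G CC)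
    (hN : Bd (stepF be ga W G) CC) :
    Rep ((List.range 48).map (rowN be ga st pv) ++ []) (stepF be ga W G) := by
  intro R
  rw [gt_mk _ _ _ (idx_lt R), row_rep be ga hbg hst hpv hW hG hN]

lemma l1_rep {st : List ℕ} {W : Row → F → ℤ} (hst : Rep st W) (hW : Bd W CC) :
    (l1 st : ℤ) = l1F W := by
  have h1 : ∀ R, ((sumN (fun j => ab (dg (gt st (idx R)) (rhoP (idx R) j))) 97 : ℕ) : ℤ)
      = rs W R := by
    intro R
    rw [sumN_eq, ← sumF (fun j => ab (dg (gt st (idx R)) (rhoP (idx R) j)))]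
    simp only [link_rho, dg_rep hst hW, rs]
    push_cast
    refine sum_congr rfl fun r _ => ?_
    have := yN_cast hW R (rho R r)
    unfold ab
    rcases abs_cases (W R (rho R r)) with h | h <;> omega
  set g : ℕ → ℕ := fun R => sumN (fun j => ab (dg (gt st R) (rhoP R j))) 97 with hg
  have h2 : l1 st = ∑ i ∈ range 6, (16 * ∑ a ∈ range 6, g (6 * i + a) + g (36 + i) + g (42 + i)) := by
    show sumN (fun R => cond (Nat.blt R 36) 16 1 * g R) 48 = _
    rw [sumN_eq]
    have hb : ∀ R : ℕ, cond (Nat.blt R 36) 16 1 = if R < 36 then 16 else 1 := by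
      intro R
      by_cases h : R < 36
      · rw [if_pos h, Nat.blt_eq.mpr h]; rfl
      · rw [if_neg h, Bool.eq_false_iff.mpr (fun h' => h (Nat.blt_eq.mp h'))]; rfl
    simp only [hb]
    clear_value g
    simp [sum_range_succ]
    ring
  rw [h2, ← sumZ6 (fun i => 16 * ∑ a ∈ range 6, g (6 * i + a) + g (36 + i) + g (42 + i))]
  simp only [l1F, ← h1]
  push_cast
  refine sum_congr rfl fun i _ => ?_
  rw [← sumZ6 (fun a => ((g (6 * i.val + a) : ℕ) : ℤ))]
  rfl

lemma Bd.mono {W : Row → F → ℤ} {b b' : ℤ} (h : Bd W b) (hb : b ≤ b') : Bd W b' :=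
  fun R r => (h R r).trans hb

lemma run_zero (L : ℕ) (st pv : List ℕ) : run L 0 st pv = Nat.ble (l1 st) L := rfl

lemma run_succ (L n : ℕ) (st pv : List ℕ) :
    run L (n + 1) st pv = mk (rowN 9 96 st pv) 48 [] (fun s => run L n s st) := rfl

lemma arith1 (n : ℕ) (b C : ℤ) (hb : 0 ≤ b) (hC : 44 ^ (n + 1 + 1) * b ≤ C) :
    44 * (44 * b) ≤ C ∧ 44 * b ≤ C ∧ b ≤ C ∧ 44 ^ (n + 1) * (44 * b) ≤ C := by
  have h0 : (1 : ℤ) ≤ 44 ^ n := one_le_pow₀ (by norm_num)
  have h1 : 44 ^ (n + 1 + 1) * b = 44 ^ n * (44 * (44 * b)) := by ring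
  have h2 : 44 * (44 * b) ≤ C := by nlinarith
  exact ⟨h2, by linarith, by linarith, by
    rw [show 44 ^ (n + 1) * (44 * b) = 44 ^ (n + 1 + 1) * b by ring]; exact hC⟩

lemma arith0 (b C : ℤ) (hC : 44 ^ (0 + 1) * b ≤ C) : 44 * b ≤ C := by simpa using hC

lemma arith2 (b : ℤ) (hb : 0 ≤ b) :
    (32 + ((9 : ℕ) : ℤ)) * (44 * b) + ((96 : ℕ) : ℤ) * b ≤ 44 * (44 * b) ∧ 0 ≤ 44 * b := by
  push_cast; constructor <;> linarith

lemma rc_succ (θ : ℝ) (n : ℕ) (a1 a0 : ℝ) :
    rc (θ - 9) (n + 1) a1 a0 = rc (θ - 9) n ((θ - ((9 : ℕ) : ℝ)) * a1 - ((96 : ℕ) : ℝ) * a0) a1 := by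
  simp [rc]

lemma run_sound {θ : ℝ} {v : D → ℝ} (hv : Eig θ v) (M : ℝ) (hM : ∀ d, |v d| ≤ M) (L : ℕ) (n : ℕ) :
    ∀ (st pv : List ℕ) (W G : Row → F → ℤ) (b : ℤ), 0 ≤ b → Rep st W → Rep pv G → Bd W (44 * b) →
      Bd G b → 44 ^ (n + 1) * b ≤ CC → run L n st pv = true →
      |rc (θ - 9) n (∑ d, lift W d * v d) (∑ d, lift G d * v d)| ≤ L * M := by
  induction n with
  | zero =>
    intro st pv W G b hb hst hpv hW hG hC hrun
    rw [run_zero] at hrun
    have h1 : l1 st ≤ L := Nat.le_of_ble_eq_true hrun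
    have h2 := l1_rep hst (hW.mono (arith0 _ _ hC))
    have h3 : ((l1F W : ℤ) : ℝ) ≤ L := by rw [← h2]; exact_mod_cast h1
    have h4 : 0 ≤ M := (abs_nonneg _).trans (hM ((0, none), 0))
    exact (pair_le W v M hM).trans (mul_le_mul_of_nonneg_right h3 h4)
  | succ n ih =>
    intro st pv W G b hb hst hpv hW hG hC hrun
    obtain ⟨c1, c2, c3, c4⟩ := arith1 n b _ hb hC
    have hN : Bd (stepF 9 96 W G) (44 * (44 * b)) := (bd_step 9 96 hW hG).mono (arith2 b hb).1
    have hr := step_rep 9 96 (by norm_num) hst hpv (hW.mono c2) (hG.mono c3) (hN.mono c1)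
    rw [run_succ, mk_eq] at hrun
    have := ih _ _ _ _ (44 * b) (arith2 b hb).2 hr hst hN hW c4 hrun
    rw [pair_step hv] at this
    rw [rc_succ]
    exact this

lemma start_sound {θ : ℝ} {v : D → ℝ} (hv : Eig θ v) (M : ℝ) (hM : ∀ d, |v d| ≤ M) (L : ℕ)
    (h : start L 52 = true) : |rc (θ - 9) 52 ((θ - 32) * v ((0, none), 0)) 0| ≤ L * M := by
  unfold start at h
  rw [mk_eq, mk_eq, mk_eq] at h
  have hz : Rep ((List.range 48).map (fun _ => CC * ones) ++ []) (fun _ _ => 0) := by
    intro R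
    rw [gt_mk _ _ _ (idx_lt R), ones_eq, mul_pack]
    refine congrArg pack (funext fun p => ?_)
    simp [yN]
  have hd0 : Rep ((List.range 48).map (fun R => CC * ones + cond (Nat.beq R 42) 1 0) ++ []) W0 := by
    intro R
    rw [gt_mk _ _ _ (idx_lt R), ones_eq, mul_pack]
    have h1 : cond (Nat.beq (idx R) 42) 1 0 = pack (fun r => (W0 R r).toNat) := by
      have h2 : pack (fun _ => 0) = 0 := by simp [pack]
      rcases R with ⟨i, a⟩ | i | i
      · have : Nat.beq (idx (.gen i a)) 42 = false := by revert i a; decide +kernel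
        rw [this]; exact h2.symm
      · have : Nat.beq (idx (.zer i)) 42 = false := by revert i; decide +kernel
        rw [this]; exact h2.symm
      · by_cases hi : i = 0
        · subst hi
          show 1 = _
          simp [pack, W0, apply_ite Int.toNat]
        · have : Nat.beq (idx (.inf i)) 42 = false := by revert i; decide +kernel
          rw [this]; simp [W0, hi, h2]
    rw [h1, pack_add]
    refine congrArg pack (funext fun r => ?_)
    have : 0 ≤ W0 R r := by
      rcases R with ⟨i, a⟩ | i | i <;> simp only [W0] <;> positivity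
    unfold yN
    omega
  have hb0 : Bd W0 1 := by
    rintro (⟨i, a⟩ | i | i) r <;> simp only [W0]
    · simp
    · simp
    · split_ifs <;> simp
  have hbz : Bd (fun _ _ => 0) 0 := fun _ _ => by simp
  have hC := CC_big'
  have hN : Bd (stepF 32 0 W0 (fun _ _ => 0)) (44 * 2) :=
    (bd_step 32 0 hb0 hbz).mono (by norm_num)
  have hr := step_rep 32 0 (by norm_num) hd0 hz (hb0.mono (by linarith)) (hbz.mono (by linarith))
    (hN.mono (by linarith))
  have := run_sound hv M hM L 52 _ _ _ _ 2 (by norm_num) hr hz hN (hbz.mono (by norm_num)) CC_big h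
  rw [pair_step hv, pair_W0] at this
  simpa [lift] using this

end Pool.Agent.Lib.MP_af4e44_co
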