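import Pool.Agent.Lib.MP_af4e44_co.Graph
import Pool.Agent.Lib.MP_af4e44_co.Spec

set_option autoImplicit false

namespace Pool.Agent.Lib.MP_af4e44_co

open Finset

open Classical in
noncomputable def TT (f : V → V → V → ℝ) : ℝ :=
  ∑ a, ∑ b, ∑ c, if adj a b ∧ adj a c ∧ adj b c then f a b c else 0

lemma TT_eq (f : V → V → V → ℝ) : TT f =
    ∑ d : D, ∑ r : F, if kk (2 * d.1.1) (d.2 - r) then f d.1 (hd d.1 d.2) (hd d.1 r) else 0 := by
  classical
  unfold TT
  rw [Fintype.sum_prod_type (α₁ := V) (α₂ := F)]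
  refine sum_congr rfl fun a _ => ?_
  have h1 : ∀ b, (∑ c, if adj a b ∧ adj a c ∧ adj b c then f a b c else 0) =
      if adj a b then ∑ r : F, (if adj b (hd a r) then f a b (hd a r) else 0) else 0 := by
    intro b
    by_cases hb : adj a b
    · rw [if_pos hb, ← sum_nb a (fun c => if adj b c then f a b c else 0)]
      refine sum_congr rfl fun c _ => ?_
      by_cases hc : adj a c <;> simp [hb, hc]
    · simp [hb]
  simp only [h1]
  rw [sum_nb a (fun b => ∑ r : F, (if adj b (hd a r) then f a b (hd a r) else 0))]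
  simp only [adj_hd_hd]

lemma TT_swap12 (f : V → V → V → ℝ) : TT f = TT (fun a b c => f b a c) := by
  classical
  unfold TT
  rw [sum_comm]
  refine sum_congr rfl fun a _ => sum_congr rfl fun b _ => sum_congr rfl fun c _ => ?_
  exact if_congr ⟨fun h => ⟨adj_symm _ _ h.1, h.2.2, h.2.1⟩,
    fun h => ⟨adj_symm _ _ h.1, h.2.2, h.2.1⟩⟩ rfl rfl

lemma TT_swap23 (f : V → V → V → ℝ) : TT f = TT (fun a b c => f a c b) := by
  classical
  unfold TT
  refine sum_congr rfl fun a _ => ?_
  rw [sum_comm]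
  refine sum_congr rfl fun b _ => sum_congr rfl fun c _ => ?_
  exact if_congr ⟨fun h => ⟨h.2.1, h.1, adj_symm _ _ h.2.2⟩,
    fun h => ⟨h.2.1, h.1, adj_symm _ _ h.2.2⟩⟩ rfl rfl

lemma TT_add (f g : V → V → V → ℝ) : TT (fun a b c => f a b c + g a b c) = TT f + TT g := by
  unfold TT
  simp only [← sum_add_distrib]
  refine sum_congr rfl fun a _ => sum_congr rfl fun b _ => sum_congr rfl fun c _ => ?_
  split_ifs <;> simp

lemma TT_congr (f g : V → V → V → ℝ)
    (h : ∀ a b c, adj a b → adj a c → adj b c → f a b c = g a b c) : TT f = TT g := by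
  unfold TT
  refine sum_congr rfl fun a _ => sum_congr rfl fun b _ => sum_congr rfl fun c _ => ?_
  split_ifs with h'
  · exact h a b c h'.1 h'.2.1 h'.2.2
  · rfl

lemma cntR (c : Z6) (p : F) (t : ℝ) : (∑ r : F, if kk c (p - r) then t else 0) = 16 * t := by
  have h := congrArg (fun n : ℕ => (n : ℝ) * t) (cnt c)
  simp only [Nat.cast_sum, Nat.cast_ite, Nat.cast_one, Nat.cast_zero, sum_mul, ite_mul, one_mul,
    zero_mul, Nat.cast_ofNat] at h
  rw [← h]
  exact Equiv.sum_comp (Equiv.subLeft p) (fun x => if kk c x then t else 0)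

lemma quad (x : V → V → ℝ) (hs : ∀ a b, x a b = x b a) (h1 : ∀ a b, x a b * x a b = 1)
    (ht : ∀ a b c, adj a b → adj a c → adj b c →
      x a b * x a c + x a b * x b c + x a c * x b c = -1) :
    ∑ d : D, x d.1 (hd d.1 d.2) * Aop (fun e => x e.1 (hd e.1 e.2)) d =
      -(16 / 3) * ∑ d : D, x d.1 (hd d.1 d.2) * x d.1 (hd d.1 d.2) := by
  have e1 : TT (fun a b c => x a b * x a c) =
      ∑ d : D, x d.1 (hd d.1 d.2) * Aop (fun e => x e.1 (hd e.1 e.2)) d := by
    rw [TT_eq]
    refine sum_congr rfl fun d _ => ?_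
    simp only [Aop, mul_sum, mul_ite, mul_zero]
  have e2 : TT (fun a b c => x a b * x b c) = TT (fun a b c => x a b * x a c) := by
    rw [TT_swap12]
    exact TT_congr _ _ fun a b c _ _ _ => by rw [hs b a]
  have e3 : TT (fun a b c => x a c * x b c) = TT (fun a b c => x a b * x b c) := by
    rw [TT_swap23]
    exact TT_congr _ _ fun a b c _ _ _ => by rw [hs c b]
  have e4 : TT (fun a b c => x a b * x a c + x a b * x b c + x a c * x b c) =
      -16 * ∑ d : D, x d.1 (hd d.1 d.2) * x d.1 (hd d.1 d.2) := by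
    rw [TT_congr _ (fun _ _ _ => -1) ht, TT_eq, mul_sum]
    refine sum_congr rfl fun d _ => ?_
    rw [cntR, h1]; norm_num
  rw [TT_add (fun a b c => x a b * x a c + x a b * x b c) (fun a b c => x a c * x b c),
    TT_add (fun a b c => x a b * x a c) (fun a b c => x a b * x b c), e3, e2, e1] at e4
  linarith

noncomputable def ker (d e : D) : ℝ := if d.1 = e.1 ∧ kk (2 * d.1.1) (d.2 - e.2) then 1 else 0

lemma ker_symm (d e : D) : ker d e = ker e d := by
  unfold ker
  refine if_congr ⟨fun h => ⟨h.1.symm, ?_⟩, fun h => ⟨h.1.symm, ?_⟩⟩ rfl rfl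
  · rw [← kk_neg, neg_sub, ← h.1]; exact h.2
  · rw [← kk_neg, neg_sub, ← h.1]; exact h.2

lemma ker_sum (y : D → ℝ) (d : D) : ∑ e, ker d e * y e = Aop y d := by
  rw [Fintype.sum_prod_type (α₁ := V) (α₂ := F), sum_eq_single d.1]
  · simp only [ker, Aop, true_and, ite_mul, one_mul, zero_mul]
  · intro b _ hb
    simp [ker, Ne.symm hb]
  · intro h; exact absurd (mem_univ _) h

lemma aop_adj (y v : D → ℝ) : ∑ d, Aop y d * v d = ∑ d, y d * Aop v d := by
  simp only [← ker_sum, sum_mul, mul_sum]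
  rw [sum_comm]
  refine sum_congr rfl fun d _ => sum_congr rfl fun e _ => ?_
  rw [ker_symm e d]; ring

lemma exists_Eig (x : V → V → ℝ) (hs : ∀ a b, x a b = x b a) (h1 : ∀ a b, x a b * x a b = 1)
    (ht : ∀ a b c, adj a b → adj a c → adj b c →
      x a b * x a c + x a b * x b c + x a c * x b c = -1) :
    ∃ θ : ℝ, θ ≤ -32 / 3 ∧ ∃ v : D → ℝ, v ≠ 0 ∧ Eig θ v := by
  obtain ⟨θ, hθ, v, hv0, hv⟩ := exists_eig ker ker_symm sg sg_sg (fun e => x e.1 (hd e.1 e.2))
    (fun d => by simp only [hd_sg]; exact hs _ _)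
    (fun h => by
      have h2 := congrFun h ((0, none), 0)
      have h3 := h1 (0, none) (hd (0, none) 0)
      simp only [Pi.zero_apply] at h2
      rw [h2] at h3
      norm_num at h3)
    (16 / 3) (by norm_num) (by simp only [ker_sum]; exact (quad x hs h1 ht).le)
  refine ⟨θ, by linarith, v, hv0, fun d => ?_⟩
  rw [← ker_sum, ← ker_sum]
  exact hv d

lemma eig_pair {θ : ℝ} {v : D → ℝ} (hv : Eig θ v) (f : D → ℝ) :
    ∑ d, Aop (fun e => f e + f (sg e)) d * v d = θ * ∑ d, f d * v d := by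
  rw [aop_adj]
  simp only [add_mul, sum_add_distrib]
  have h : ∑ d, f (sg d) * Aop v d = ∑ d, f d * Aop v (sg d) := by
    rw [← sum_invol sg sg_sg (fun d => f d * Aop v (sg d))]
    simp only [sg_sg]
  rw [h, ← sum_add_distrib, mul_sum]
  refine sum_congr rfl fun d _ => ?_
  rw [← mul_add, hv d]; ring

end Pool.Agent.Lib.MP_af4e44_co
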